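import Pool.Agent.helper95.FJ.SpecD

set_option autoImplicit false

open Finset Pool.Agent.FI

namespace Pool.Agent.FJ

/-- the key of a pair `(p, m)`: modulus, residue class, `m` -/
private def CSF_key {ι : Type} (Dp : ι → ℕ) (w : ι → ℤ) (e : Σ _ : ι, ℤ) : Σ _ : ℕ, ℕ × ℤ :=
  ⟨Dp e.1, ((w e.1 % (Dp e.1 : ℤ)).toNat, e.2)⟩

private theorem CSF_res (D : ℕ) (w : ℤ) (hD : 1 ≤ D) (hw : IsCoprime w (D : ℤ)) :
    (w % (D : ℤ)).toNat < D ∧ Nat.Coprime (w % (D : ℤ)).toNat D ∧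
      (D : ℤ) ∣ w - (((w % (D : ℤ)).toNat : ℕ) : ℤ) := by
  have hD0 : (0 : ℤ) < D := by exact_mod_cast hD
  have h0 : 0 ≤ w % (D : ℤ) := Int.emod_nonneg _ hD0.ne'
  have h1 : w % (D : ℤ) < D := Int.emod_lt_of_pos _ hD0
  have h2 : (((w % (D : ℤ)).toNat : ℕ) : ℤ) = w % (D : ℤ) := Int.toNat_of_nonneg h0
  refine ⟨by omega, ?_, ?_⟩
  · rw [← Nat.isCoprime_iff_coprime, h2]
    have h3 : w % (D : ℤ) = w + D * (-(w / (D : ℤ))) := by
      have := Int.emod_add_mul_ediv w D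
      linarith
    rw [h3]
    exact IsCoprime.add_mul_left_left hw _
  · rw [h2]
    exact Int.dvd_self_sub_emod

theorem CSF : CSF_stmt := by
  classical
  intro ι P Dp w Ms F D₁ K k₁ k₂ hk₁ hk₂ hF0 hFp hP hk
  set E : Finset (Σ _ : ι, ℤ) := P.sigma Ms with hE
  set T : Finset (Σ _ : ℕ, ℕ × ℤ) := (Icc 1 D₁).sigma fun D =>
    {ω ∈ range D | Nat.Coprime ω D} ×ˢ Ioo (-(K : ℤ)) K with hT
  set G : (Σ _ : ℕ, ℕ × ℤ) → ℝ := fun t => F t.1 (t.2.1 : ℤ) t.2.2 with hG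
  set c : (Σ _ : ℕ, ℕ × ℤ) → ℝ := fun t => (#{e ∈ E | CSF_key Dp w e = t} : ℝ) with hc
  have hmap : ∀ e ∈ E, CSF_key Dp w e ∈ T := by
    intro e he
    rw [hE, mem_sigma] at he
    obtain ⟨h1, h2⟩ := he
    obtain ⟨a1, a2, a3, a4, a5⟩ := hP e.1 h1
    obtain ⟨b1, b2, b3⟩ := CSF_res (Dp e.1) (w e.1) a1 a3
    rw [hT, mem_sigma, mem_product, mem_filter, mem_range, mem_Icc]
    exact ⟨⟨a1, a2⟩, ⟨b1, b2⟩, a4 h2⟩
  have hL : ∑ p ∈ P, ∑ m ∈ Ms p, F (Dp p) (w p) m = ∑ e ∈ E, G (CSF_key Dp w e) := by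
    rw [hE, sum_sigma]
    refine sum_congr rfl fun p hp => sum_congr rfl fun m _ => ?_
    obtain ⟨a1, a2, a3, a4, a5⟩ := hP p hp
    exact hFp _ _ _ _ (CSF_res (Dp p) (w p) a1 a3).2.2
  have hL2 : ∑ e ∈ E, G (CSF_key Dp w e) = ∑ t ∈ T, c t * G t := by
    rw [← sum_fiberwise_of_maps_to hmap]
    refine sum_congr rfl fun t _ => ?_
    rw [sum_congr rfl (g := fun _ => G t) fun e he => by rw [(mem_filter.1 he).2], sum_const,
      nsmul_eq_mul]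
  have hR : ∑ t ∈ T, G t ^ 2 = ∑ D ∈ Icc 1 D₁, ∑ ω ∈ range D with Nat.Coprime ω D,
      ∑ m ∈ Ioo (-(K : ℤ)) K, F D (ω : ℤ) m ^ 2 := by
    rw [hT, sum_sigma]
    refine sum_congr rfl fun D _ => ?_
    rw [sum_product]
  have hce : ∀ e ∈ E, c (CSF_key Dp w e) ≤ k₂ := by
    intro e he
    rw [hE, mem_sigma] at he
    refine le_trans ?_ (hk e.1 he.1)
    show (#{e' ∈ E | CSF_key Dp w e' = CSF_key Dp w e} : ℝ) ≤ _
    rw [Nat.cast_le]
    refine card_le_card_of_injOn (fun e' => e'.1) ?_ ?_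
    · intro e' he'
      rw [mem_coe, mem_filter, hE, mem_sigma] at he'
      obtain ⟨⟨h1, h2⟩, h3⟩ := he'
      unfold CSF_key at h3
      rw [Sigma.mk.injEq] at h3
      obtain ⟨h4, h5⟩ := h3
      rw [heq_eq_eq, Prod.mk.injEq] at h5
      obtain ⟨h5, h6⟩ := h5
      rw [mem_coe, mem_filter]
      obtain ⟨a1, -, a3, -, -⟩ := hP e.1 he.1
      obtain ⟨b1, -, b3, -, -⟩ := hP e'.1 h1
      refine ⟨h1, h4, ?_, ⟨e.2, ?_⟩⟩
      · have q1 := (CSF_res (Dp e.1) (w e.1) a1 a3).2.2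
        have q2 := (CSF_res (Dp e'.1) (w e'.1) b1 b3).2.2
        rw [h5, h4] at q2
        have q3 := dvd_sub q1 q2
        have q4 : w e.1 - (((w e.1 % (Dp e.1 : ℤ)).toNat : ℕ) : ℤ) -
            (w e'.1 - (((w e.1 % (Dp e.1 : ℤ)).toNat : ℕ) : ℤ)) = w e.1 - w e'.1 := by ring
        rw [q4] at q3
        exact q3
      · rw [mem_inter]
        exact ⟨he.2, h6 ▸ h2⟩
    · intro e' he' e'' he'' h
      rw [mem_coe, mem_filter] at he' he''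
      have h3 := he'.2.trans he''.2.symm
      unfold CSF_key at h3
      rw [Sigma.mk.injEq] at h3
      obtain ⟨h4, h5⟩ := h3
      rw [heq_eq_eq, Prod.mk.injEq] at h5
      exact Sigma.ext h (heq_of_eq h5.2)
  have hc2 : ∑ t ∈ T, c t ^ 2 ≤ #P * k₁ * k₂ := by
    have h1 : ∑ t ∈ T, c t ^ 2 = ∑ e ∈ E, c (CSF_key Dp w e) := by
      rw [← sum_fiberwise_of_maps_to hmap]
      refine sum_congr rfl fun t _ => ?_
      rw [sum_congr rfl (g := fun _ => c t) fun e he => by rw [(mem_filter.1 he).2], sum_const,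
        nsmul_eq_mul, sq]
    rw [h1]
    refine (sum_le_sum hce).trans ?_
    rw [sum_const, nsmul_eq_mul]
    refine mul_le_mul_of_nonneg_right ?_ hk₂
    rw [hE, card_sigma, Nat.cast_sum]
    refine (sum_le_sum fun p hp => (hP p hp).2.2.2.2).trans ?_
    rw [sum_const, nsmul_eq_mul]
  rw [hL, hL2, ← hR]
  refine (Real.sum_mul_le_sqrt_mul_sqrt T c G).trans ?_
  exact mul_le_mul_of_nonneg_right (Real.sqrt_le_sqrt hc2) (Real.sqrt_nonneg _)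

end Pool.Agent.FJ
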