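import Pool.Agent.helper95.FJ.SpecD
import Pool.Agent.helper85.MT.MLS

set_option autoImplicit false

open Finset Pool.Agent.FI

namespace Pool.Agent.FJ

private theorem LSB_abel (T : ℕ → ℝ) (K X : ℝ) (R₀ : ℕ) (hR : 1 ≤ R₀) (hK : 0 ≤ K)
    (hA : ∀ n : ℕ, ∑ r ∈ Icc 1 n, T r ≤ K * (X + (n : ℝ) ^ 2)) (n : ℕ) (hn : R₀ ≤ n)
    (hT : ∀ r, 0 ≤ T r) :
    ∑ r ∈ Ioc R₀ n, T r / r ≤ (∑ r ∈ Icc 1 n, T r) / n +
      K * (X * (1 / (R₀ : ℝ) - 1 / n) + ((n : ℝ) - R₀)) := by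
  induction n, hn using Nat.le_induction with
  | base =>
    rw [Ioc_self, sum_empty, sub_self, sub_self, mul_zero, add_zero, mul_zero, add_zero]
    exact div_nonneg (sum_nonneg fun r _ => hT r) (by positivity)
  | succ n hn ih =>
    have hn0 : (0 : ℝ) < n := by exact_mod_cast (by omega : 0 < n)
    rw [sum_Ioc_succ_top hn, sum_Icc_succ_top (by omega : 1 ≤ n + 1)]
    set A := ∑ r ∈ Icc 1 n, T r with hAd
    have h1 := hA n
    push_cast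
    have h2 : (A + T (n + 1)) / ((n : ℝ) + 1) + K * (X * (1 / (R₀ : ℝ) - 1 / ((n : ℝ) + 1)) +
        ((n : ℝ) + 1 - R₀)) = (A / n + K * (X * (1 / (R₀ : ℝ) - 1 / n) + ((n : ℝ) - R₀))) +
        T (n + 1) / ((n : ℝ) + 1) + (K * (X + n * (n + 1)) - A) / (n * (n + 1)) := by
      field_simp
      ring
    rw [h2]
    have h3 : 0 ≤ (K * (X + n * (n + 1)) - A) / (n * (n + 1)) := by
      apply div_nonneg _ (by positivity)
      have h4 : K * (X + (n : ℝ) ^ 2) ≤ K * (X + n * (n + 1)) :=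
        mul_le_mul_of_nonneg_left (by nlinarith) hK
      linarith
    linarith


private theorem LSB_cast (M₀ N₀ : ℕ) {E : Type*} [AddCommMonoid E] (f : ℤ → E) :
    ∑ n ∈ Ioc (M₀ : ℤ) (M₀ + N₀), f n = ∑ n ∈ Ioc M₀ (M₀ + N₀), f (n : ℤ) := by
  symm
  refine sum_nbij (fun n : ℕ => (n : ℤ)) ?_ ?_ ?_ ?_
  · intro n hn
    rw [mem_Ioc] at hn ⊢
    omega
  · intro a _ b _ h
    exact Nat.cast_injective (R := ℤ) h
  · intro z hz
    rw [mem_coe, mem_Ioc] at hz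
    refine ⟨z.toNat, ?_, ?_⟩
    · rw [mem_coe, mem_Ioc]
      omega
    · show ((z.toNat : ℕ) : ℤ) = z
      omega
  · intro n _
    rfl

theorem LSB : LSB_stmt := by
  classical
  refine ⟨10, by norm_num, fun Q R₀ M₀ N₀ b hR => ?_⟩
  set S : ℕ → ℝ := fun r => ∑ ψ : DirichletCharacter ℂ r with ψ.IsPrimitive,
    ‖∑ n ∈ Ioc M₀ (M₀ + N₀), b (n : ℤ) * ψ (n : ZMod r)‖ ^ 2 with hS
  have hS0 : ∀ r, 0 ≤ S r := fun r => sum_nonneg fun _ _ => by positivity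
  have hSe : ∀ r : ℕ, (∑ ψ : DirichletCharacter ℂ r with ψ.IsPrimitive,
      ‖∑ n ∈ Ioc (M₀ : ℤ) (M₀ + N₀), b n * ψ (n : ZMod r)‖ ^ 2) = S r := by
    intro r
    refine sum_congr rfl fun ψ _ => ?_
    rw [LSB_cast M₀ N₀ (fun n : ℤ => b n * ψ (n : ZMod r))]
    refine congrArg (fun z : ℂ => ‖z‖ ^ 2) (sum_congr rfl fun n _ => ?_)
    show b (n : ℤ) * ψ (((n : ℕ) : ℤ) : ZMod r) = _
    rw [Int.cast_natCast]
  rw [LSB_cast M₀ N₀ (fun n : ℤ => ‖b n‖ ^ 2)]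
  set B := ∑ n ∈ Ioc M₀ (M₀ + N₀), ‖b (n : ℤ)‖ ^ 2 with hB
  have hB0 : 0 ≤ B := sum_nonneg fun _ _ => by positivity
  have hR0 : (0 : ℝ) < R₀ := by exact_mod_cast hR
  have hgoal : ∑ r ∈ Ioc R₀ Q, 1 / (Nat.totient r : ℝ) * S r ≤ 10 * ((N₀ : ℝ) / R₀ + Q) * B := by
    rcases Nat.lt_or_ge Q R₀ with hQ | hQ
    · rw [Ioc_eq_empty (by omega), sum_empty]
      positivity
    · set T : ℕ → ℝ := fun r => (r : ℝ) / Nat.totient r * S r with hT
      have hT0 : ∀ r, 0 ≤ T r := fun r => mul_nonneg (by positivity) (hS0 r)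
      have hA : ∀ n : ℕ, ∑ r ∈ Icc 1 n, T r ≤ (5 * B) * ((N₀ : ℝ) + (n : ℝ) ^ 2) := by
        intro n
        have h1 := Pool.Agent.helper85.MT.mult_large_sieve n M₀ N₀ (fun n : ℕ => b (n : ℤ))
        refine h1.trans (le_of_eq ?_)
        ring
      have h2 := LSB_abel T (5 * B) N₀ R₀ hR (by positivity) hA Q hQ hT0
      have h3 : ∑ r ∈ Ioc R₀ Q, 1 / (Nat.totient r : ℝ) * S r = ∑ r ∈ Ioc R₀ Q, T r / r := by
        refine sum_congr rfl fun r hr => ?_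
        rw [mem_Ioc] at hr
        have hr1 : 0 < r := by omega
        have hr0 : (r : ℝ) ≠ 0 := by exact_mod_cast hr1.ne'
        show _ = (r : ℝ) / Nat.totient r * S r / r
        field_simp
      rw [h3]
      refine h2.trans ?_
      have hQ0 : (0 : ℝ) < Q := by exact_mod_cast (by omega : 0 < Q)
      have hQR : (R₀ : ℝ) ≤ Q := by exact_mod_cast hQ
      have h4 : (∑ r ∈ Icc 1 Q, T r) / Q ≤ 5 * B * ((N₀ : ℝ) / R₀ + Q) := by
        rw [div_le_iff₀ hQ0]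
        refine (hA Q).trans ?_
        rw [mul_assoc (5 * B) ((N₀ : ℝ) / R₀ + Q) (Q : ℝ)]
        refine mul_le_mul_of_nonneg_left ?_ (by positivity)
        have h5 : (N₀ : ℝ) ≤ N₀ / R₀ * Q := by
          rw [div_mul_eq_mul_div, le_div_iff₀ hR0]
          exact mul_le_mul_of_nonneg_left hQR (by positivity)
        nlinarith
      have h6 : (N₀ : ℝ) * (1 / (R₀ : ℝ) - 1 / Q) + ((Q : ℝ) - R₀) ≤ N₀ / R₀ + Q := by
        have h7 : 0 ≤ (N₀ : ℝ) * (1 / Q) := by positivity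
        have h8 : (N₀ : ℝ) * (1 / (R₀ : ℝ) - 1 / Q) = N₀ / R₀ - N₀ * (1 / Q) := by ring
        rw [h8]
        linarith
      have h9 : 5 * B * ((N₀ : ℝ) * (1 / (R₀ : ℝ) - 1 / Q) + ((Q : ℝ) - R₀)) ≤
          5 * B * (N₀ / R₀ + Q) := mul_le_mul_of_nonneg_left h6 (by positivity)
      calc _ ≤ 5 * B * ((N₀ : ℝ) / R₀ + Q) + 5 * B * (N₀ / R₀ + Q) := add_le_add h4 h9
        _ = _ := by ring
  refine le_trans (le_of_eq ?_) hgoal
  exact sum_congr rfl fun r _ => congrArg (fun z : ℝ => 1 / (Nat.totient r : ℝ) * z) (hSe r)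

end Pool.Agent.FJ
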