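import Pool.Agent.helper94.FJ.SpecP

set_option autoImplicit false

namespace Pool.Agent.FJ

open Finset ArithmeticFunction MeasureTheory
open Pool.Agent.CH (nit DPb)
open Pool.Agent.SK (tr0 Th muz sml bgf zN uu)
open Pool.Agent.helper85.BVP (tau)

private theorem PWI_set (N : ℕ) (v δ : ℝ) (hb : Real.exp (v + δ / 2) ≤ 64 * (N : ℝ) ^ 3) :
    (Ioc 0 (64 * N ^ 3)).filter (fun m : ℕ => |Real.log m - v| ≤ δ / 2) =
      Ioc (⌈Real.exp (v - δ / 2)⌉₊ - 1) ⌊Real.exp (v + δ / 2)⌋₊ := by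
  ext m
  have hc : 0 < ⌈Real.exp (v - δ / 2)⌉₊ := Nat.ceil_pos.2 (Real.exp_pos _)
  rw [mem_filter, mem_Ioc, mem_Ioc, abs_le]
  constructor
  · rintro ⟨⟨h0, -⟩, h1, h2⟩
    have hm : (0 : ℝ) < m := by exact_mod_cast h0
    have h3 : Real.exp (v - δ / 2) ≤ m := by
      rw [← Real.le_log_iff_exp_le hm]
      linarith
    have h4 : (m : ℝ) ≤ Real.exp (v + δ / 2) := by
      rw [← Real.log_le_iff_le_exp hm]
      linarith
    have h5 : ⌈Real.exp (v - δ / 2)⌉₊ ≤ m := Nat.ceil_le.2 h3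
    exact ⟨by omega, Nat.le_floor h4⟩
  · rintro ⟨h1, h2⟩
    have h3 : ⌈Real.exp (v - δ / 2)⌉₊ ≤ m := by omega
    have h4 : Real.exp (v - δ / 2) ≤ m := Nat.ceil_le.1 h3
    have hm : (0 : ℝ) < m := (Real.exp_pos _).trans_le h4
    have h5 : (m : ℝ) ≤ Real.exp (v + δ / 2) :=
      (Nat.cast_le.2 h2).trans (Nat.floor_le (Real.exp_pos _).le)
    have h6 : m ≤ 64 * N ^ 3 := by
      have h7 : (m : ℝ) ≤ ((64 * N ^ 3 : ℕ) : ℝ) := by
        push_cast
        exact h5.trans hb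
      exact_mod_cast h7
    refine ⟨⟨by exact_mod_cast hm, h6⟩, ?_, ?_⟩
    · have h8 := (Real.le_log_iff_exp_le hm).2 h4
      linarith
    · have h8 := (Real.log_le_iff_le_exp hm).2 h5
      linarith

theorem PWI (hPSR : Pool.Agent.SK.PSR_stmt) : PWI_stmt := by
  intro A Bq
  obtain ⟨N₀, hN₀⟩ := hPSR (A + 7) Bq 3 (by norm_num)
  refine ⟨max N₀ 8, fun N hN v δ hv hδ hδ1 q hq hqL ψ hψ => ?_⟩
  have hN1 : N₀ ≤ N := le_of_max_le_left hN
  have hN8 : 8 ≤ N := le_of_max_le_right hN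
  have hNr : (8 : ℝ) ≤ N := by exact_mod_cast hN8
  have hN0 : (0 : ℝ) < N := by linarith
  have hl : 2 ≤ Real.log N := by
    have h1 : Real.log 8 ≤ Real.log N := Real.log_le_log (by norm_num) hNr
    have h2 : Real.log 8 = 3 * Real.log 2 := by
      rw [show (8 : ℝ) = 2 ^ 3 by norm_num, Real.log_pow]
      norm_num
    have h3 := Real.log_two_gt_d9
    linarith
  set U : ℝ := 64 * (N : ℝ) ^ 3 with hU
  have hU0 : 0 ≤ U := by positivity
  have key : ∀ u : ℕ, (u : ℝ) ≤ U → ‖∑ m ∈ Ioc 0 u, hL q ψ m‖ ≤ U / Real.log N ^ (A + 7) := by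
    intro u hu
    have h1 := hN₀ N hN1 U (by
      rw [hU, show (3 : ℝ) = ((3 : ℕ) : ℝ) by norm_num, Real.rpow_natCast]
      have : (0 : ℝ) ≤ (N : ℝ) ^ 3 := by positivity
      linarith) le_rfl u hu
    by_cases hq1 : q = 1
    · subst hq1
      refine le_trans (le_of_eq ?_) h1.2
      congr 1
      refine sum_congr rfl fun m _ => ?_
      unfold hL
      have h2 : ψ m = 1 := by
        have h3 : (m : ZMod 1) = 1 := Subsingleton.elim _ _
        rw [h3, map_one]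
      rw [h2, mul_one, if_pos rfl]
    · have hψ1 : ψ ≠ 1 := hψ.resolve_left hq1
      refine le_trans (le_of_eq ?_) (h1.1 q hq hqL ψ hψ1)
      congr 1
      refine sum_congr rfl fun m _ => ?_
      unfold hL
      rw [if_neg hq1, sub_zero]
  have hexp : Real.exp (v + δ / 2) ≤ 64 * (N : ℝ) ^ 3 := by
    have h1 : v + δ / 2 ≤ 3 * Real.log N + 2 := by
      have := (abs_le.1 hv).2
      linarith
    have h2 : Real.exp (3 * Real.log N + 2) = (N : ℝ) ^ 3 * Real.exp 2 := by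
      rw [Real.exp_add, show 3 * Real.log N = ((3 : ℕ) : ℝ) * Real.log N by norm_num, Real.exp_nat_mul,
        Real.exp_log hN0]
    have h3 : Real.exp 2 ≤ 64 := by
      have h4 := Real.exp_one_lt_d9
      have h5 : Real.exp 2 = Real.exp 1 * Real.exp 1 := by
        rw [← Real.exp_add]
        norm_num
      have h6 := Real.exp_pos 1
      nlinarith
    have h7 : (0 : ℝ) ≤ (N : ℝ) ^ 3 := by positivity
    calc Real.exp (v + δ / 2) ≤ Real.exp (3 * Real.log N + 2) := Real.exp_le_exp.2 h1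
      _ = (N : ℝ) ^ 3 * Real.exp 2 := h2
      _ ≤ 64 * (N : ℝ) ^ 3 := by nlinarith
  set a : ℕ := ⌈Real.exp (v - δ / 2)⌉₊ - 1 with ha
  set b : ℕ := ⌊Real.exp (v + δ / 2)⌋₊ with hb
  have hbU : (b : ℝ) ≤ U := (Nat.floor_le (Real.exp_pos _).le).trans hexp
  have hab : a ≤ b := by
    refine Nat.le_floor ?_
    have hc : 0 < ⌈Real.exp (v - δ / 2)⌉₊ := Nat.ceil_pos.2 (Real.exp_pos _)
    have h1 : (a : ℝ) < Real.exp (v - δ / 2) := by
      refine Nat.lt_ceil.1 ?_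
      omega
    exact h1.le.trans (Real.exp_le_exp.2 (by linarith))
  have haU : (a : ℝ) ≤ U := (Nat.cast_le.2 hab).trans hbU
  have hsum : ∑ m ∈ Ioc 0 (64 * N ^ 3), hL q ψ m * ((bxw δ (Real.log m - v) : ℝ) : ℂ) =
      ∑ m ∈ Ioc 0 b, hL q ψ m - ∑ m ∈ Ioc 0 a, hL q ψ m := by
    have h1 : ∀ m ∈ Ioc 0 (64 * N ^ 3), hL q ψ m * ((bxw δ (Real.log m - v) : ℝ) : ℂ) =
        if |Real.log m - v| ≤ δ / 2 then hL q ψ m else 0 := by
      intro m _
      unfold bxw
      split_ifs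
      · rw [Complex.ofReal_one, mul_one]
      · rw [Complex.ofReal_zero, mul_zero]
    rw [sum_congr rfl h1, ← sum_filter, PWI_set N v δ hexp, eq_sub_iff_add_eq, add_comm,
      sum_Ioc_consecutive _ (Nat.zero_le _) hab]
  rw [hsum]
  have h1 := key b hbU
  have h2 := key a haU
  refine (norm_sub_le _ _).trans ((add_le_add h1 h2).trans ?_)
  have hp : 0 < Real.log N ^ A := by positivity
  have h128 : (128 : ℝ) ≤ Real.log N ^ 7 := by
    calc (128 : ℝ) = 2 ^ 7 := by norm_num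
      _ ≤ Real.log N ^ 7 := pow_le_pow_left₀ (by norm_num) hl 7
  rw [← two_mul, mul_div_assoc', div_le_div_iff₀ (by positivity) hp, pow_add, hU]
  have h3 : (0 : ℝ) ≤ (N : ℝ) ^ 3 * Real.log N ^ A := by positivity
  nlinarith

end Pool.Agent.FJ
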