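import Pool.Agent.helper95.FJ.SpecE

set_option autoImplicit false

open Finset Pool.Agent.FI

namespace Pool.Agent.FJ

private theorem ZGD_class (M g : ℕ) (hg : 0 < g) (v : ℤ) :
    (#{r ∈ Icc (-(M : ℤ)) M | (g : ℤ) ∣ r - v} : ℝ) ≤ (2 * M + 1) / g + 1 := by
  have hg0 : (0 : ℤ) < g := by exact_mod_cast hg
  have h1 : {r ∈ Icc (-(M : ℤ)) M | (g : ℤ) ∣ r - v} =
      {r ∈ Ioc (-(M : ℤ) - 1) M | r ≡ v [ZMOD (g : ℤ)]} := by
    ext r
    rw [mem_filter, mem_filter, mem_Icc, mem_Ioc, Int.modEq_comm, Int.modEq_iff_dvd]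
    constructor
    · rintro ⟨h, h'⟩
      exact ⟨by omega, h'⟩
    · rintro ⟨h, h'⟩
      exact ⟨by omega, h'⟩
  have h2 := Int.Ioc_filter_modEq_card (-(M : ℤ) - 1) (M : ℤ) hg0 v
  rw [← h1] at h2
  have h3 := Int.floor_le (((M : ℤ) - v : ℚ) / ((g : ℤ) : ℚ))
  have h4 := Int.lt_floor_add_one (((-(M : ℤ) - 1 : ℤ) - v : ℚ) / ((g : ℤ) : ℚ))
  have h5 : ((#{r ∈ Icc (-(M : ℤ)) M | (g : ℤ) ∣ r - v} : ℤ) : ℚ) ≤ (2 * M + 1) / g + 1 := by
    rw [h2]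
    have hgq : (0 : ℚ) < g := by exact_mod_cast hg
    push_cast
    refine max_le ?_ (by positivity)
    push_cast at h3 h4
    have h6 : ((M : ℚ) - v) / g - (-(M : ℚ) - 1 - v) / g = (2 * M + 1) / g := by
      field_simp
      ring
    linarith
  have h7 : ((((#{r ∈ Icc (-(M : ℤ)) M | (g : ℤ) ∣ r - v} : ℤ) : ℚ) : ℚ) : ℝ) ≤
      (((2 * M + 1) / g + 1 : ℚ) : ℝ) := by exact_mod_cast h5
  push_cast at h7
  exact h7

private theorem ZGD_two (M g : ℕ) (hg : g.Prime) (s : ℤ) :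
    (#{r ∈ Icc (-(M : ℤ)) M | (g : ℤ) ∣ r ^ 2 - 8 * s ^ 2} : ℝ) ≤ 2 * ((2 * M + 1) / g + 1) := by
  classical
  rcases Finset.eq_empty_or_nonempty {r ∈ Icc (-(M : ℤ)) M | (g : ℤ) ∣ r ^ 2 - 8 * s ^ 2} with he | ⟨r₀, hr₀⟩
  · rw [he, card_empty, Nat.cast_zero]
    positivity
  · rw [mem_filter] at hr₀
    have hsub : {r ∈ Icc (-(M : ℤ)) M | (g : ℤ) ∣ r ^ 2 - 8 * s ^ 2} ⊆
        {r ∈ Icc (-(M : ℤ)) M | (g : ℤ) ∣ r - r₀} ∪ {r ∈ Icc (-(M : ℤ)) M | (g : ℤ) ∣ r - (-r₀)} := by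
      intro r hr
      rw [mem_filter] at hr
      have h1 : (g : ℤ) ∣ (r - r₀) * (r - (-r₀)) := by
        have h2 := dvd_sub hr.2 hr₀.2
        have h3 : r ^ 2 - 8 * s ^ 2 - (r₀ ^ 2 - 8 * s ^ 2) = (r - r₀) * (r - (-r₀)) := by ring
        rwa [h3] at h2
      rw [mem_union, mem_filter, mem_filter]
      rcases (Nat.prime_iff_prime_int.1 hg).dvd_or_dvd h1 with h | h
      · exact Or.inl ⟨hr.1, h⟩
      · exact Or.inr ⟨hr.1, h⟩
    have h1 : (#{r ∈ Icc (-(M : ℤ)) M | (g : ℤ) ∣ r ^ 2 - 8 * s ^ 2} : ℝ) ≤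
        (#{r ∈ Icc (-(M : ℤ)) M | (g : ℤ) ∣ r - r₀} : ℝ) +
          (#{r ∈ Icc (-(M : ℤ)) M | (g : ℤ) ∣ r - (-r₀)} : ℝ) := by
      exact_mod_cast (card_le_card hsub).trans (card_union_le _ _)
    have h2 := ZGD_class M g hg.pos r₀
    have h3 := ZGD_class M g hg.pos (-r₀)
    linarith

theorem ZGD (hFFC : FFC_stmt) : ZGD_stmt := by
  classical
  refine ⟨50, by norm_num, fun N g hN hg => ?_⟩
  set M : ℕ := Nat.sqrt (4 * N) with hM
  have hbd : ∀ a : ℤ, a ^ 2 ≤ 4 * (N : ℤ) → a ∈ Icc (-(M : ℤ)) M := by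
    intro a ha
    have h1 : a.natAbs ≤ M := by
      rw [hM, Nat.le_sqrt']
      have h2 : ((a.natAbs ^ 2 : ℕ) : ℤ) ≤ ((4 * N : ℕ) : ℤ) := by
        push_cast
        rw [sq_abs]
        exact ha
      exact_mod_cast h2
    rw [mem_Icc]
    omega
  have hz : ∀ z ∈ ZD N, z.1 ∈ Icc (-(M : ℤ)) M ∧ z.2 ∈ Icc (-(M : ℤ)) M := by
    intro z hz
    have h1 : z ∈ FF (2 * N) := (mem_filter.1 hz).1
    obtain ⟨h2, h3⟩ := (hFFC (2 * N)).2 z h1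
    push_cast at h2 h3
    exact ⟨hbd _ (by linarith), hbd _ (by
      have : (0 : ℤ) ≤ N := by positivity
      linarith)⟩
  have hN1 : (1 : ℝ) ≤ N := by exact_mod_cast hN
  have hsN : (1 : ℝ) ≤ √N := by
    rw [Real.one_le_sqrt]
    exact hN1
  have hss : √(N : ℝ) * √N = N := Real.mul_self_sqrt (by positivity)
  have hMle : (M : ℝ) ≤ 2 * √N := by
    have h1 : (M : ℝ) ≤ √((4 * N : ℕ) : ℝ) := Real.nat_sqrt_le_real_sqrt
    refine h1.trans (le_of_eq ?_)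
    push_cast
    rw [Real.sqrt_mul (by norm_num), show (4 : ℝ) = 2 ^ 2 by norm_num, Real.sqrt_sq (by norm_num)]
  have h2M : (2 * M + 1 : ℝ) ≤ 5 * √N := by linarith
  have hg0 : (0 : ℝ) < g := by exact_mod_cast hg.pos
  have hfib : (#{z ∈ ZD N | g ∣ nn z} : ℝ) ≤
      ∑ s ∈ Icc (-(M : ℤ)) M, (2 * ((2 * M + 1) / g + 1) : ℝ) := by
    rw [card_eq_sum_card_fiberwise (f := fun z : ℤ × ℤ => z.2) (t := Icc (-(M : ℤ)) M)
      (fun z h => (hz z (mem_filter.1 h).1).2), Nat.cast_sum]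
    refine sum_le_sum fun s _ => ?_
    refine le_trans ?_ (ZGD_two M g hg s)
    rw [Nat.cast_le]
    refine card_le_card_of_injOn (fun z => z.1) ?_ ?_
    · intro z h
      rw [mem_coe, mem_filter, mem_filter] at h
      obtain ⟨⟨h1, h2⟩, h3⟩ := h
      rw [mem_coe, mem_filter]
      refine ⟨(hz z h1).1, ?_⟩
      have h4 : (g : ℤ) ∣ N8 z := Int.natCast_dvd.2 h2
      unfold N8 at h4
      rw [h3] at h4
      exact h4
    · intro z h z' h' he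
      rw [mem_coe, mem_filter] at h h'
      exact Prod.ext he (h.2.trans h'.2.symm)
  refine hfib.trans ?_
  rw [sum_const, nsmul_eq_mul, Int.card_Icc]
  have hc : (((M : ℤ) + 1 - -(M : ℤ)).toNat : ℝ) = 2 * M + 1 := by
    have : ((M : ℤ) + 1 - -(M : ℤ)).toNat = 2 * M + 1 := by omega
    rw [this]
    push_cast
    ring
  rw [hc]
  have h5 : (2 * M + 1 : ℝ) / g ≤ 5 * √N / g := by gcongr
  have h6 : (2 * M + 1 : ℝ) * (2 * ((2 * M + 1) / g + 1)) ≤ (5 * √N) * (2 * (5 * √N / g + 1)) := by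
    have h7 : (0 : ℝ) ≤ 2 * ((2 * M + 1) / g + 1) := by positivity
    refine mul_le_mul h2M (by linarith) h7 (by positivity)
  refine h6.trans ?_
  have h8 : (5 * √(N : ℝ)) * (2 * (5 * √N / g + 1)) = 50 * (√N * √N) / g + 10 * √N := by ring
  rw [h8, hss]
  have h9 : (50 : ℝ) * (N / g + √N) = 50 * N / g + 50 * √N := by ring
  rw [h9]
  linarith

end Pool.Agent.FJ
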